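import Pool.Agent.helper37.L5.Spec
import Pool.Agent.helper58.LE.MNG

/-!
# Row l5:MN5 of MP_baa4d7_al
-/

set_option autoImplicit false

namespace Pool.Agent.L5

open Pool.Agent.helper58.DC Pool.Agent.DI Pool.Agent.GR Pool.Agent.OB Pool.Agent.DR Pool.Agent.FI Pool.Agent.FI3 Pool.Agent.FI4 Pool.Agent.FI4I Pool.Agent.LE

theorem MN5 (hTG : TG5_stmt) (hDV : DV5_stmt) (hOPD : OPD_stmt) (hOB : OB5_stmt) (hFR : FR5_stmt) (hECN : ECN_stmt)
    (hLEL : LEL_stmt) : MN5_stmt := by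
  intro p M hS H hHer c hc hBD G₀ _ _ D₀ x₀ θ₀ χ₀ hR₀ hH₀
  have hOB' := hOB p M hS H hHer (fun z => ∃ l : ℕ, z = l ∧ 1 ≤ l ∧ l ≤ p ^ c) hBD
  suffices K : ∀ k : ℕ, ∀ (G : Type) [Group G] [Finite G], Nat.card G = k → ∀ (D : Subgroup G) (x : G) (θ χ : G → ℂ),
      Rt p M D x θ χ → H G D (TT M D θ) → Le p M (⊤ : Subgroup G) θ = Le p M (nz (Ec p c D)) θ from
    K _ G₀ rfl D₀ x₀ θ₀ χ₀ hR₀ hH₀
  intro k
  induction k using Nat.strong_induction_on with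
  | _ k ih =>
    intro G _ _ hn D x θ χ hR hH
    obtain ⟨R, hRop⟩ := MN4_op p hS.pr G
    have hRD := hOPD p M hS G D x θ χ hR R hRop
    have hnR : nz R = ⊤ := top_le_iff.1 hRop.1.2.2
    obtain ⟨-, -, hE3, hE4, -, hE6, -⟩ := hECN p c hS.pr G D hR.dfa.pgrp hR.com
    by_cases hER : Ec p c D ≤ R
    · have hT : TT M D θ ≤ nz D := fun g hg => hg.1
      rw [hFR p M hS G D x θ χ hR R hRD hnR ⊤ le_top le_top,
        hFR p M hS G D x θ χ hR R hRD hnR (nz (Ec p c D)) (hE6 R hER) (hT.trans hE3)]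
    · obtain ⟨z, hzD, hzR⟩ := hE4 R hER
      have h1 := hTG p M hS H hHer G D x θ χ hR hH c R hRop hRD hER (fun G' _ _ hlt D' x' θ' χ' hR' hH' =>
          ih (Nat.card G') (by rw [← hn]; exact hlt) G' rfl D' x' θ' χ' hR' hH')
      obtain ⟨m, hm⟩ := hDV p M hS G D x θ χ hR c hc R hRop hRD z hzD hzR
      obtain ⟨l, hl, hl0, hlp⟩ := hBD G D x θ χ hR hH
      obtain ⟨l', hl', hl0', hlp'⟩ := hOB' G D x θ χ hR hH c
      rw [(hLEL p M hS G D x θ χ hR).2] at hl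
      rw [h1, hl, hl'] at hm
      have hG0 : (Nat.card G : ℂ) ≠ 0 := by exact_mod_cast Nat.card_pos.ne'
      have h2 : (Nat.card G : ℂ) * (((l : ℤ) - l' : ℤ) : ℂ) = (Nat.card G : ℂ) * ((((p ^ c : ℕ) : ℤ) * m : ℤ) : ℂ) := by
        push_cast
        rw [hm]
        ring
      have h3 : (l : ℤ) - l' = ((p ^ c : ℕ) : ℤ) * m := by exact_mod_cast mul_left_cancel₀ hG0 h2
      rw [hl, hl', MNG_num (p ^ c) l l' m hl0 hl0' hlp hlp' h3]

end Pool.Agent.L5
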