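import Pool.Agent.helper37.L5.SpecE
import Pool.Agent.helper26.FI4E.TOE

/-!
# Row l5:TOE5 of MP_baa4d7_al
-/

set_option autoImplicit false

namespace Pool.Agent.L5

open Pool.Agent.helper58.DC Pool.Agent.DI Pool.Agent.GR Pool.Agent.OB Pool.Agent.DR Pool.Agent.FI Pool.Agent.FI3 Pool.Agent.FI4 Pool.Agent.FI4I Pool.Agent.FI4E Pool.Agent.LE

theorem TOE5 (hTGP : TGP5_stmt) (hCTG : CTG5_stmt) (hFXA : FXA_stmt) (hECN : ECN_stmt) (hBAA : BAA_stmt) (hFEQ : FEQ_stmt) : TOE5_stmt := by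
  classical
  intro p M hM G _ _ D x θ χ hRt e R hR hRD hne α hα
  haveI : Fact p.Prime := ⟨hM.pr⟩
  haveI : Fintype G := Fintype.ofFinite G
  haveI : Fintype (Finset (Subgroup G)) := Fintype.ofFinite _
  have hRn : nz R = ⊤ := top_le_iff.1 hR.1.2.2
  have hRc : ∀ h y : G, y ∈ R → h * y * h⁻¹ ∈ R := by
    intro h y hy
    have h1 : h ∈ nz R := by rw [hRn]; trivial
    rw [Subgroup.mem_normalizer_iff] at h1
    exact (h1 y).1 hy
  -- one pair `(g, h)`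
  have hsub : ∀ g h : G, FxR M (cjS h D) (cjF h θ) (al α g) →
      ∑ᶠ C ∈ {C : Finset (Subgroup G) | (NCh p ⊤ R C ∧ C ≠ {R}) ∧ FxC (al α g) C ∧ ∀ Q ∈ C, Q ≤ cjS h D},
        (-1 : ℂ) ^ (C.card + 1) * tE p M (nrm C ⊓ nz (Ec p e (cjS h D))) (cjF h θ) (al α g) =
      - tE p M (nz (Ec p e (cjS h D))) (cjF h θ) (al α g) := by
    intro g h hgh
    have hcom : ∀ c ∈ cjS h D, ∀ d ∈ cjS h D, c * d = d * c := by
      intro c hc d hd
      rw [mem_cjS] at hc hd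
      have h1 := hRt.com _ hc _ hd
      have h2 : h * (h⁻¹ * c * h * (h⁻¹ * d * h)) * h⁻¹ = h * (h⁻¹ * d * h * (h⁻¹ * c * h)) * h⁻¹ := by
        rw [h1]
      have h3 : h * (h⁻¹ * c * h * (h⁻¹ * d * h)) * h⁻¹ = c * d := by group
      have h4 : h * (h⁻¹ * d * h * (h⁻¹ * c * h)) * h⁻¹ = d * c := by group
      rw [h3, h4] at h2
      exact h2
    have hpg : IsPGroup p (cjS h D) := hRt.dfa.pgrp.map _
    have hRle : R ≤ cjS h D := by
      intro y hy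
      rw [mem_cjS]
      apply hRD
      have h2 := hRc h⁻¹ y hy
      rw [inv_inv] at h2
      exact h2
    have hE : Ec p e (cjS h D) = cjS h (Ec p e D) := (hECN p e hM.pr G D hRt.dfa.pgrp hRt.com).2.1 h
    have hER : ¬ Ec p e (cjS h D) ≤ R := by
      intro h1
      apply hne
      intro y hy
      have h2 : h * y * h⁻¹ ∈ Ec p e (cjS h D) := by
        rw [hE, mem_cjS]
        have h3 : h⁻¹ * (h * y * h⁻¹) * h = y := by group
        rw [h3]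
        exact hy
      have h3 := hRc h⁻¹ _ (h1 h2)
      have h4 : h⁻¹ * (h * y * h⁻¹) * h⁻¹⁻¹ = y := by group
      rw [h4] at h3
      exact h3
    have hth : cjF h θ ∈ IrrOn (cz (cjS h D)) := by
      obtain ⟨-, h1, -, h2, -⟩ := hFEQ G M h 1 D D (cz D) θ θ χ
      rw [h1.1]
      exact h2.1 hRt.th
    have hEa : am (al α g) (Ec p e (cjS h D)) = Ec p e (cjS h D) :=
      ((hFXA p M hM G (cjS h D) (cjF h θ) hth (al α g) hgh).2.2.2.2.2.1 e).1
    have hRa : am (al α g) R = R :=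
      ((hBAA G M p (al α g) R R R χ χ χ).1).2.2.2.2.2.2.2.2 hR
    exact hTGP G p (cjS h D) R (Ec p e (cjS h D)) (al α g) hpg hcom hRle Ec_le hER hRn hEa hRa
      (fun K => tE p M K (cjF h θ) (al α g))
  have hC := hCTG p M hM G D x θ χ hRt e α hα
  -- both sides as finite sums
  have e1 : ∑ᶠ C ∈ {C : Finset (Subgroup G) | NCh p ⊤ R C ∧ C ≠ {R}}, (-1 : ℂ) ^ (C.card + 1) *
      ∑ᶠ g ∈ {g : G | FxC (al α g) C},
        ∑ᶠ h ∈ {h : G | (∀ Q ∈ C, Q ≤ cjS h D) ∧ FxR M (cjS h D) (cjF h θ) (al α g)},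
          tE p M (nrm C ⊓ nz (Ec p e (cjS h D))) (cjF h θ) (al α g) =
      ∑ C : Finset (Subgroup G), ∑ g : G, ∑ h : G,
        if (NCh p ⊤ R C ∧ C ≠ {R}) ∧ FxC (al α g) C ∧ (∀ Q ∈ C, Q ≤ cjS h D) ∧
          FxR M (cjS h D) (cjF h θ) (al α g) then
          (-1 : ℂ) ^ (C.card + 1) * tE p M (nrm C ⊓ nz (Ec p e (cjS h D))) (cjF h θ) (al α g) else 0 := by
    rw [TOE_fm]
    refine Finset.sum_congr rfl fun C _ => ?_
    by_cases h1 : NCh p ⊤ R C ∧ C ≠ {R}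
    · rw [if_pos (show C ∈ {C : Finset (Subgroup G) | NCh p ⊤ R C ∧ C ≠ {R}} from h1), TOE_fm,
        Finset.mul_sum]
      refine Finset.sum_congr rfl fun g _ => ?_
      by_cases h2 : FxC (al α g) C
      · rw [if_pos (show g ∈ {g : G | FxC (al α g) C} from h2), TOE_fm, Finset.mul_sum]
        refine Finset.sum_congr rfl fun h _ => ?_
        by_cases h3 : (∀ Q ∈ C, Q ≤ cjS h D) ∧ FxR M (cjS h D) (cjF h θ) (al α g)
        · rw [if_pos (show h ∈ {h : G | (∀ Q ∈ C, Q ≤ cjS h D) ∧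
            FxR M (cjS h D) (cjF h θ) (al α g)} from h3), if_pos ⟨h1, h2, h3⟩]
        · rw [if_neg (show ¬ h ∈ {h : G | (∀ Q ∈ C, Q ≤ cjS h D) ∧
            FxR M (cjS h D) (cjF h θ) (al α g)} from h3), if_neg fun hh => h3 hh.2.2, mul_zero]
      · rw [if_neg (show ¬ g ∈ {g : G | FxC (al α g) C} from h2), mul_zero]
        exact (Finset.sum_eq_zero fun h _ => if_neg fun hh => h2 hh.2.1).symm
    · rw [if_neg (show ¬ C ∈ {C : Finset (Subgroup G) | NCh p ⊤ R C ∧ C ≠ {R}} from h1)]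
      exact (Finset.sum_eq_zero fun g _ => Finset.sum_eq_zero fun h _ =>
        if_neg fun hh => h1 hh.1).symm
  have e2 : ∑ᶠ g : G, ∑ᶠ h ∈ {h : G | FxR M (cjS h D) (cjF h θ) (al α g)},
      tE p M (nz (Ec p e (cjS h D))) (cjF h θ) (al α g) = ∑ g : G, ∑ h : G,
        if FxR M (cjS h D) (cjF h θ) (al α g) then tE p M (nz (Ec p e (cjS h D))) (cjF h θ) (al α g) else 0 := by
    rw [TOE_fa]
    exact Finset.sum_congr rfl fun g _ => TOE_fm _ _
  rw [e1, ← hC, e2, Finset.sum_comm, ← Finset.sum_neg_distrib]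
  refine Finset.sum_congr rfl fun g _ => ?_
  rw [Finset.sum_comm, ← Finset.sum_neg_distrib]
  refine Finset.sum_congr rfl fun h _ => ?_
  by_cases h3 : FxR M (cjS h D) (cjF h θ) (al α g)
  · rw [if_pos h3, ← hsub g h h3, TOE_fm]
    refine Finset.sum_congr rfl fun C _ => ?_
    by_cases h4 : (NCh p ⊤ R C ∧ C ≠ {R}) ∧ FxC (al α g) C ∧ ∀ Q ∈ C, Q ≤ cjS h D
    · rw [if_pos ⟨h4.1, h4.2.1, h4.2.2, h3⟩,
        if_pos (show C ∈ {C : Finset (Subgroup G) | (NCh p ⊤ R C ∧ C ≠ {R}) ∧ FxC (al α g) C ∧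
          ∀ Q ∈ C, Q ≤ cjS h D} from h4)]
    · rw [if_neg fun hh => h4 ⟨hh.1, hh.2.1, hh.2.2.1⟩,
        if_neg (show ¬ C ∈ {C : Finset (Subgroup G) | (NCh p ⊤ R C ∧ C ≠ {R}) ∧ FxC (al α g) C ∧
          ∀ Q ∈ C, Q ≤ cjS h D} from h4)]
  · rw [if_neg h3, neg_zero]
    exact Finset.sum_eq_zero fun C _ => if_neg fun hh => h3 hh.2.2.2

end Pool.Agent.L5
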